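import Mathlib

set_option autoImplicit false

namespace Pool.Agent.TS33

/-- the 3-periodic sequence `b(n) = 2, 6, 0` for `n ≡ 1, 2, 0 (mod 3)` -/
def b (n : ℕ) : ℕ := if n % 3 = 1 then 2 else if n % 3 = 2 then 6 else 0

/-- the sequence `a_N`: `a_N(1) = N - 6` and
`a_N(n) = a_N(n-1) - gcd (a_N(n-1), n + b(n))` for `n ≥ 2` (the value at `0` is a dummy) -/
def a (N : ℕ) : ℕ → ℤ
  | 0 => 0
  | 1 => (N : ℤ) - 6
  | (n + 2) => a N (n + 1) - (Int.gcd (a N (n + 1)) ((n + 2 + b (n + 2) : ℕ) : ℤ) : ℤ)

/-- `f(N)` is the least `n ≥ 1` with `a_N(n) = 0` -/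
noncomputable def f (N : ℕ) : ℕ := sInf {n : ℕ | 1 ≤ n ∧ a N n = 0}

/-- the gcd subtracted at index `n + 1` -/
def g (N n : ℕ) : ℕ := Int.gcd (a N n) ((n + 1 + b (n + 1) : ℕ) : ℤ)

theorem a_succ (N n : ℕ) (hn : 1 ≤ n) : a N (n + 1) = a N n - (g N n : ℤ) := by
  obtain ⟨m, rfl⟩ : ∃ m, n = m + 1 := ⟨n - 1, by omega⟩
  rfl

theorem a_one (N : ℕ) : a N 1 = (N : ℤ) - 6 := rfl

theorem g_pos (N n : ℕ) : 1 ≤ g N n := by
  unfold g
  rw [Nat.one_le_iff_ne_zero]
  intro h
  rw [Int.gcd_eq_zero_iff] at h
  have h2 : n + 1 + b (n + 1) = 0 := by exact_mod_cast h.2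
  omega

theorem g_le (N n : ℕ) (h : 0 < a N n) : (g N n : ℤ) ≤ a N n := by
  unfold g
  exact Int.gcd_le_left _ h

theorem exists_zero (N : ℕ) (hN : 6 ≤ N) : ∃ n, 1 ≤ n ∧ a N n = 0 := by
  by_contra hcon
  push Not at hcon
  have key : ∀ n, 1 ≤ n → 0 < a N n ∧ a N n + n ≤ (N : ℤ) - 5 := by
    intro n hn
    induction n, hn using Nat.le_induction with
    | base =>
      have h1 := hcon 1 le_rfl
      rw [a_one] at h1 ⊢
      constructor
      · have : (6 : ℤ) ≤ N := by exact_mod_cast hN
        omega
      · push_cast; omega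
    | succ n hn ih =>
      have h1 := hcon (n + 1) (by omega)
      have h2 := a_succ N n hn
      have h3 := g_pos N n
      have h4 := g_le N n ih.1
      constructor
      · omega
      · push_cast; omega
  have := key N (by omega)
  omega

theorem f_spec (N : ℕ) (hN : 6 ≤ N) : 1 ≤ f N ∧ a N (f N) = 0 :=
  Nat.sInf_mem (exists_zero N hN)

theorem a_pos_of_lt (N : ℕ) (hN : 6 ≤ N) (n : ℕ) (hn : 1 ≤ n) (hnf : n < f N) : 0 < a N n := by
  have hne : ∀ m, 1 ≤ m → m < f N → a N m ≠ 0 := by
    intro m hm hmf h0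
    exact Nat.notMem_of_lt_sInf hmf ⟨hm, h0⟩
  induction n, hn using Nat.le_induction with
  | base =>
    have h1 := hne 1 le_rfl hnf
    rw [a_one] at h1 ⊢
    have : (6 : ℤ) ≤ N := by exact_mod_cast hN
    omega
  | succ n hn ih =>
    have h0 := ih (by omega)
    have h1 := hne (n + 1) (by omega) hnf
    have h2 := a_succ N n hn
    have h4 := g_le N n h0
    omega

/-- `S n = a_N(n) + n + 1`, which is constant while the gcd is `1` -/
def S (N n : ℕ) : ℕ := (a N n + n + 1).toNat

theorem S_cast (N : ℕ) (hN : 6 ≤ N) (n : ℕ) (hn : 1 ≤ n) (hnf : n ≤ f N) :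
    (S N n : ℤ) = a N n + n + 1 := by
  unfold S
  apply Int.toNat_of_nonneg
  rcases Nat.lt_or_ge n (f N) with h | h
  · have := a_pos_of_lt N hN n hn h
    omega
  · have : n = f N := le_antisymm hnf h
    rw [this, (f_spec N hN).2]
    omega

theorem S_one (N : ℕ) (hN : 6 ≤ N) : S N 1 + 4 = N := by
  have h := S_cast N hN 1 le_rfl (f_spec N hN).1
  rw [a_one] at h
  push_cast at h
  omega

theorem S_f (N : ℕ) (hN : 6 ≤ N) : S N (f N) = f N + 1 := by
  have h := S_cast N hN (f N) (f_spec N hN).1 le_rfl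
  rw [(f_spec N hN).2] at h
  omega

theorem S_succ (N : ℕ) (hN : 6 ≤ N) (n : ℕ) (hn : 1 ≤ n) (hnf : n < f N) :
    S N (n + 1) + g N n = S N n + 1 := by
  have h1 := S_cast N hN n hn hnf.le
  have h2 := S_cast N hN (n + 1) (by omega) hnf
  have h3 := a_succ N n hn
  push_cast at h2
  omega

theorem S_gt (N : ℕ) (hN : 6 ≤ N) (n : ℕ) (hn : 1 ≤ n) (hnf : n < f N) : n + 2 ≤ S N n := by
  have h1 := S_cast N hN n hn hnf.le
  have h2 := a_pos_of_lt N hN n hn hnf
  omega

theorem g_dvd_right (N n : ℕ) : g N n ∣ n + 1 + b (n + 1) := by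
  unfold g
  have := Int.gcd_dvd_right (a N n) ((n + 1 + b (n + 1) : ℕ) : ℤ)
  exact_mod_cast this

theorem g_dvd_left (N : ℕ) (hN : 6 ≤ N) (n : ℕ) (hn : 1 ≤ n) (hnf : n < f N) :
    g N n ∣ S N n + b (n + 1) := by
  have h1 := S_cast N hN n hn hnf.le
  have h2 : (g N n : ℤ) ∣ a N n := Int.gcd_dvd_left _ _
  have h3 : (g N n : ℤ) ∣ ((n + 1 + b (n + 1) : ℕ) : ℤ) := Int.gcd_dvd_right _ _
  have h4 : ((S N n + b (n + 1) : ℕ) : ℤ) = a N n + ((n + 1 + b (n + 1) : ℕ) : ℤ) := by
    push_cast
    rw [h1]; ring
  have h5 : (g N n : ℤ) ∣ ((S N n + b (n + 1) : ℕ) : ℤ) := by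
    rw [h4]; exact dvd_add h2 h3
  exact_mod_cast h5

theorem dvd_g (N : ℕ) (hN : 6 ≤ N) (n : ℕ) (hn : 1 ≤ n) (hnf : n < f N) (d : ℕ)
    (h1 : d ∣ S N n + b (n + 1)) (h2 : d ∣ n + 1 + b (n + 1)) : d ∣ g N n := by
  have h3 := S_cast N hN n hn hnf.le
  unfold g
  rw [← Int.natCast_dvd_natCast]
  apply Int.dvd_coe_gcd
  · have h4 : a N n = ((S N n + b (n + 1) : ℕ) : ℤ) - ((n + 1 + b (n + 1) : ℕ) : ℤ) := by
      push_cast
      rw [h3]; ring
    rw [h4]
    exact dvd_sub (by exact_mod_cast h1) (by exact_mod_cast h2)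
  · exact_mod_cast h2

/-- `x`, `x + 2`, `x + 6` are all prime -/
def Tri (x : ℕ) : Prop := x.Prime ∧ (x + 2).Prime ∧ (x + 6).Prime

theorem b_cases (n : ℕ) : (n % 3 = 0 ∧ b n = 0) ∨ (n % 3 = 1 ∧ b n = 2) ∨ (n % 3 = 2 ∧ b n = 6) := by
  unfold b
  have : n % 3 < 3 := Nat.mod_lt _ (by norm_num)
  split_ifs <;> omega

theorem stable (N : ℕ) (hN : 6 ≤ N) (n : ℕ) (hn : 1 ≤ n) (hnf : n ≤ f N) (ht : Tri (S N n)) :
    Tri (f N + 1) := by
  have key : ∀ m, n ≤ m → m ≤ f N → S N m = S N n := by
    intro m hm
    induction m, hm using Nat.le_induction with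
    | base => intro _; rfl
    | succ m hm ih =>
      intro hmf
      have h0 := ih (by omega)
      have hlt : m < f N := by omega
      have hm1 : 1 ≤ m := by omega
      have h1 := S_succ N hN m hm1 hlt
      have h2 := g_dvd_left N hN m hm1 hlt
      have h3 := g_dvd_right N m
      have h4 := S_gt N hN m hm1 hlt
      have hp : (S N m + b (m + 1)).Prime := by
        rw [h0]
        rcases b_cases (m + 1) with h | h | h
        · rw [h.2]; exact ht.1
        · rw [h.2]; exact ht.2.1
        · rw [h.2]; exact ht.2.2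
      rcases (Nat.dvd_prime hp).mp h2 with h5 | h5
      · omega
      · exfalso
        have h6 := Nat.le_of_dvd (by omega) h3
        omega
  have := key (f N) hnf le_rfl
  rw [S_f N hN] at this
  rw [this]
  exact ht

theorem S_anti (N : ℕ) (hN : 6 ≤ N) (n m : ℕ) (hn : 1 ≤ n) (hm : n ≤ m) (hmf : m ≤ f N) :
    S N m ≤ S N n := by
  induction m, hm using Nat.le_induction with
  | base => exact le_rfl
  | succ m hm ih =>
    have h0 := ih (by omega)
    have h1 := S_succ N hN m (by omega) (by omega)
    have h2 := g_pos N m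
    omega

/-- first jump after `n`, at an index at most `j` -/
theorem next_jump (N : ℕ) (hN : 6 ≤ N) (n j : ℕ) (hn : 1 ≤ n) (hj : n ≤ j) (hjf : j < f N)
    (h : S N j = S N n → 2 ≤ g N j) :
    ∃ k, n ≤ k ∧ k ≤ j ∧ S N k = S N n ∧ 2 ≤ g N k := by
  by_contra hcon
  push Not at hcon
  have key : ∀ k, n ≤ k → k ≤ j → S N k = S N n := by
    intro k hk
    induction k, hk using Nat.le_induction with
    | base => intro _; rfl
    | succ k hk ih =>
      intro hkj
      have h0 := ih (by omega)
      have h1 := hcon k hk (by omega) h0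
      have h2 := g_pos N k
      have h3 := S_succ N hN k (by omega) (by omega)
      omega
  have h1 := key j hj le_rfl
  have h2 := hcon j hj le_rfl h1
  have h3 := h h1
  omega

/-- extra credit in the residue class `1` modulo `6` -/
def c (s : ℕ) : ℕ := if s % 6 = 1 then 2 else 0

/-- checkpoints: the invariant of the potential argument -/
def Chk (N n : ℕ) : Prop := 1 ≤ n ∧ n ≤ f N ∧ 2 * n + 7 * S N n + 28 ≤ 7 * N + c (S N n) + 2

theorem chk_next (N : ℕ) (hN : 6 ≤ N) (hnt : ¬ Tri (f N + 1)) (n : ℕ) (hc : Chk N n)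
    (hnf : n + 3 * Nat.sqrt (N + 2) ≤ f N) : ∃ m, n < m ∧ Chk N m := by
  obtain ⟨hn1, hn2, hinv⟩ := hc
  have hq : 2 ≤ Nat.sqrt (N + 2) := by
    rw [Nat.le_sqrt]; omega
  have hlt : n < f N := by omega
  have hSgt := S_gt N hN n hn1 hlt
  have hSle : S N n + 4 ≤ N := by
    have h1 := S_anti N hN 1 n le_rfl hn1 hn2
    have h2 := S_one N hN
    omega
  set s := S N n with hs
  -- generic step
  have step : ∀ k, n ≤ k → k < f N → S N k = s → 2 ≤ g N k →
      2 * (k + 1 - n) + c s ≤ 7 * (g N k - 1) + c (s + 1 - g N k) → ∃ m, n < m ∧ Chk N m := by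
    intro k hk1 hk2 hk3 hk4 hk5
    have h1 := S_succ N hN k (by omega) hk2
    have h2 : S N (k + 1) = s + 1 - g N k := by omega
    refine ⟨k + 1, by omega, by omega, by omega, ?_⟩
    rw [h2]
    have h3 : g N k ≤ s + 1 := by omega
    omega
  have hgdvd : ∀ k, n ≤ k → k < f N → S N k = s →
      g N k ∣ s * (s + 2) * (s + 6) := by
    intro k hk1 hk2 hk3
    have h1 := g_dvd_left N hN k (by omega) hk2
    rw [hk3] at h1
    rcases b_cases (k + 1) with h | h | h
    · rw [h.2] at h1
      exact Dvd.dvd.mul_right (Dvd.dvd.mul_right h1 _) _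
    · rw [h.2] at h1
      exact Dvd.dvd.mul_right (Dvd.dvd.mul_left h1 _) _
    · rw [h.2] at h1
      exact Dvd.dvd.mul_left h1 _
  rcases Nat.mod_two_eq_zero_or_one s with hev | hodd
  · -- s even
    have hj : ∃ j, n ≤ j ∧ j ≤ n + 1 ∧ (j + 1) % 2 = 0 := by
      rcases Nat.mod_two_eq_zero_or_one (n + 1) with h | h
      · exact ⟨n, le_rfl, by omega, h⟩
      · exact ⟨n + 1, by omega, le_rfl, by omega⟩
    obtain ⟨j, hj1, hj2, hj3⟩ := hj
    obtain ⟨k, hk1, hk2, hk3, hk4⟩ := next_jump N hN n j hn1 hj1 (by omega) (by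
      intro hS
      have h1 : 2 ∣ g N j := by
        apply dvd_g N hN j (by omega) (by omega)
        · rw [hS]
          rcases b_cases (j + 1) with h | h | h <;> rw [h.2] <;> omega
        · rcases b_cases (j + 1) with h | h | h <;> rw [h.2] <;> omega
      have h2 := g_pos N j
      exact Nat.le_of_dvd (by omega) h1)
    apply step k hk1 (by omega) hk3 hk4
    have : c s = 0 := by unfold c; split_ifs <;> omega
    rw [this]
    omega
  · -- s odd
    have hgodd : ∀ k, n ≤ k → k < f N → S N k = s → 2 ≤ g N k → 3 ≤ g N k := by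
      intro k hk1 hk2 hk3 hk4
      by_contra hcon
      have h2 : g N k = 2 := by omega
      have h3 := g_dvd_left N hN k (by omega) hk2
      rw [h2, hk3] at h3
      rcases b_cases (k + 1) with h | h | h <;> rw [h.2] at h3 <;> omega
    by_cases h3 : s % 3 = 2
    swap
    · -- s ≡ 0 or 1 mod 3
      have hj : ∃ j, n ≤ j ∧ j ≤ n + 2 ∧ (j + 1) % 3 = s % 3 := by
        have : s % 3 = 0 ∨ s % 3 = 1 := by omega
        have h0 : ∃ i, i ≤ 2 ∧ (n + i + 1) % 3 = s % 3 := by
          rcases this with h | h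
          · rcases (by omega : n % 3 = 0 ∨ n % 3 = 1 ∨ n % 3 = 2) with h' | h' | h'
            · exact ⟨2, by omega, by omega⟩
            · exact ⟨1, by omega, by omega⟩
            · exact ⟨0, by omega, by omega⟩
          · rcases (by omega : n % 3 = 0 ∨ n % 3 = 1 ∨ n % 3 = 2) with h' | h' | h'
            · exact ⟨0, by omega, by omega⟩
            · exact ⟨2, by omega, by omega⟩
            · exact ⟨1, by omega, by omega⟩
        obtain ⟨i, hi1, hi2⟩ := h0
        exact ⟨n + i, by omega, by omega, hi2⟩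
      obtain ⟨j, hj1, hj2, hj3⟩ := hj
      obtain ⟨k, hk1, hk2, hk3, hk4⟩ := next_jump N hN n j hn1 hj1 (by omega) (by
        intro hS
        have h1 : 3 ∣ g N j := by
          apply dvd_g N hN j (by omega) (by omega)
          · rw [hS]
            rcases b_cases (j + 1) with h | h | h <;> rw [h.2] <;> omega
          · rcases b_cases (j + 1) with h | h | h <;> rw [h.2] <;> omega
        have h2 := g_pos N j
        have := Nat.le_of_dvd (by omega) h1
        omega)
      apply step k hk1 (by omega) hk3 hk4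
      have hg3 := hgodd k hk1 (by omega) hk3 hk4
      have : c s ≤ 2 := by unfold c; split_ifs <;> omega
      omega
    · -- s ≡ 5 mod 6
      have hs5 : s % 6 = 5 := by omega
      have hcs : c s = 0 := by unfold c; split_ifs <;> omega
      have hnts : ¬ Tri s := fun h => hnt (stable N hN n hn1 hn2 h)
      -- least prime factor of the product
      set P := s * (s + 2) * (s + 6) with hP
      have hs0 : 5 ≤ s := by omega
      have hP1 : P ≠ 1 := by
        rw [hP]
        have : 5 * 7 * 11 ≤ s * (s + 2) * (s + 6) :=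
          Nat.mul_le_mul (Nat.mul_le_mul hs0 (by omega)) (by omega)
        omega
      set p := P.minFac with hp
      have hpp : p.Prime := Nat.minFac_prime hP1
      have hpdvd : p ∣ P := Nat.minFac_dvd P
      have hpsq : p * p ≤ s + 6 := by
        have aux : ∀ x, 2 ≤ x → x ≤ s + 6 → x ∣ P → ¬ x.Prime → p * p ≤ s + 6 := by
          intro x hx2 hx6 hxP hxn
          have h1 : x.minFac ^ 2 ≤ x := Nat.minFac_sq_le_self (by omega) hxn
          have h2 : p ≤ x.minFac :=
            Nat.minFac_le_of_dvd (Nat.minFac_prime (by omega)).two_le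
              ((Nat.minFac_dvd x).trans hxP)
          calc p * p ≤ x.minFac * x.minFac := Nat.mul_le_mul h2 h2
            _ = x.minFac ^ 2 := by ring
            _ ≤ x := h1
            _ ≤ s + 6 := hx6
        unfold Tri at hnts
        by_cases h1 : s.Prime
        · by_cases h2 : (s + 2).Prime
          · by_cases h3' : (s + 6).Prime
            · exact absurd ⟨h1, h2, h3'⟩ hnts
            · exact aux (s + 6) (by omega) le_rfl (Dvd.intro_left _ rfl) h3'
          · exact aux (s + 2) (by omega) (by omega)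
              (Dvd.dvd.mul_right (Dvd.intro_left _ rfl) _) h2
        · exact aux s (by omega) (by omega)
            (Dvd.dvd.mul_right (Dvd.intro _ rfl) _) h1
      have hpq : p ≤ Nat.sqrt (N + 2) := by
        rw [Nat.le_sqrt]; omega
      -- p divides one of the factors, p ≥ 5
      have hpβ : p ∣ s ∨ p ∣ s + 2 ∨ p ∣ s + 6 := by
        rcases (Nat.Prime.dvd_mul hpp).mp hpdvd with h | h
        · rcases (Nat.Prime.dvd_mul hpp).mp h with h | h
          · exact Or.inl h
          · exact Or.inr (Or.inl h)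
        · exact Or.inr (Or.inr h)
      have hp2 : p ≠ 2 := by
        intro h
        rw [h] at hpβ
        omega
      have hp3 : p ≠ 3 := by
        intro h
        rw [h] at hpβ
        omega
      have hp5 : 5 ≤ p := by
        have h2 := hpp.two_le
        have h4 : p ≠ 4 := by
          intro h
          rw [h] at hpp
          exact absurd hpp (by decide)
        omega
      -- every jump from s is at least p
      have hgp : ∀ k, n ≤ k → k < f N → S N k = s → 2 ≤ g N k → p ≤ g N k := by
        intro k hk1 hk2 hk3 hk4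
        have h1 := hgdvd k hk1 hk2 hk3
        exact Nat.minFac_le_of_dvd hk4 h1
      -- waiting time
      have hcop : Nat.Coprime 3 p := by
        rw [Nat.coprime_primes Nat.prime_three hpp]
        exact fun h => hp3 h.symm
      have hwait : ∀ (r β : ℕ), r < 3 → (∀ m, m % 3 = r → b m = β) → p ∣ s + β →
          ∃ j, n ≤ j ∧ j < n + 3 * p ∧ (j + 1) % 3 = r ∧ p ∣ j + 1 + β := by
        intro r β hr hb hdv
        -- find a residue class modulo 3 p
        obtain ⟨x, hx1, hx2⟩ := Nat.chineseRemainder hcop r ((p - β % p) % p)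
        -- j + 1 ≡ x mod 3 p, in [n + 1, n + 3 p]
        have h3p : 0 < 3 * p := by omega
        set y := n + 1 + ((x + (3 * p) * (n + 1)) - (n + 1)) % (3 * p) with hy
        have hy1 : y ≡ x [MOD 3 * p] := by
          rw [hy]
          have h1 : n + 1 ≤ x + (3 * p) * (n + 1) := by nlinarith
          have h2 : n + 1 + ((x + (3 * p) * (n + 1)) - (n + 1)) % (3 * p) ≡
              n + 1 + ((x + (3 * p) * (n + 1)) - (n + 1)) [MOD 3 * p] :=
            Nat.ModEq.add_left _ (Nat.mod_modEq _ _)
          have h3 : n + 1 + ((x + (3 * p) * (n + 1)) - (n + 1)) = x + (3 * p) * (n + 1) := by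
            omega
          rw [h3] at h2
          refine h2.trans ?_
          unfold Nat.ModEq
          rw [Nat.add_mul_mod_self_left]
        have hylt : ((x + (3 * p) * (n + 1)) - (n + 1)) % (3 * p) < 3 * p := Nat.mod_lt _ h3p
        refine ⟨y - 1, by omega, by omega, ?_, ?_⟩
        · have h1 : y - 1 + 1 = y := by omega
          rw [h1]
          have h2 : y ≡ x [MOD 3] := hy1.of_mul_right p
          have h4 : y ≡ r [MOD 3] := h2.trans hx1
          unfold Nat.ModEq at h4
          rw [h4, Nat.mod_eq_of_lt hr]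
        · have h1 : y - 1 + 1 = y := by omega
          rw [h1]
          have h2 : y ≡ x [MOD p] := hy1.of_mul_left 3
          have h4 : y ≡ (p - β % p) % p [MOD p] := h2.trans hx2
          have h5 : y + β ≡ 0 [MOD p] := by
            have h6 : y + β ≡ (p - β % p) + β % p [MOD p] := by
              apply Nat.ModEq.add
              · exact h4.trans (Nat.mod_modEq _ _)
              · exact (Nat.mod_modEq _ _).symm
            have h7 : (p - β % p) + β % p = p := by
              have := Nat.mod_lt β (by omega : p > 0)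
              omega
            rw [h7] at h6
            exact h6.trans (by unfold Nat.ModEq; simp)
          exact (Nat.modEq_zero_iff_dvd).mp h5
      have hj : ∃ j, n ≤ j ∧ j < n + 3 * p ∧ (S N j = s → j < f N → 2 ≤ g N j) := by
        have fin : ∀ (r β : ℕ), r < 3 → (∀ m, m % 3 = r → b m = β) → p ∣ s + β →
            ∃ j, n ≤ j ∧ j < n + 3 * p ∧ (S N j = s → j < f N → 2 ≤ g N j) := by
          intro r β hr hb hdv
          obtain ⟨j, hj1, hj2, hj3, hj4⟩ := hwait r β hr hb hdv
          refine ⟨j, hj1, hj2, fun hS hjf => ?_⟩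
          have hbj : b (j + 1) = β := hb _ hj3
          have h1 : p ∣ g N j := by
            apply dvd_g N hN j (by omega) hjf
            · rw [hS, hbj]; exact hdv
            · rw [hbj]; exact hj4
          have h2 := g_pos N j
          have h3 := Nat.le_of_dvd (by omega) h1
          omega
        rcases hpβ with h | h | h
        · exact fin 0 0 (by norm_num) (fun m hm => by unfold b; split_ifs <;> omega) h
        · exact fin 1 2 (by norm_num) (fun m hm => by unfold b; split_ifs <;> omega) h
        · exact fin 2 6 (by norm_num) (fun m hm => by unfold b; split_ifs <;> omega) h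
      obtain ⟨j, hj1, hj2, hj3⟩ := hj
      have hjf : j < f N := by omega
      obtain ⟨k, hk1, hk2, hk3, hk4⟩ := next_jump N hN n j hn1 hj1 hjf (fun hS => hj3 hS hjf)
      have hgk := hgp k hk1 (by omega) hk3 hk4
      apply step k hk1 (by omega) hk3 hk4
      rw [hcs]
      -- arithmetic
      by_cases hg5 : g N k = 5
      · have hp5' : p = 5 := by omega
        have hc' : c (s + 1 - g N k) = 2 := by
          unfold c
          rw [hg5, if_pos (by omega)]
        rw [hc', hg5]
        omega
      · -- g is coprime to 6, hence at least 7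
        have hg7 : 7 ≤ g N k := by
          have h6 : g N k ≠ 6 := by
            intro h
            have h1 := g_dvd_left N hN k (by omega) (by omega)
            rw [h, hk3] at h1
            rcases b_cases (k + 1) with h' | h' | h' <;> rw [h'.2] at h1 <;> omega
          omega
        rcases Nat.lt_or_ge p 7 with hp7 | hp7
        · have hp5' : p ≤ 6 := by omega
          have hp6 : p ≠ 6 := by
            intro h
            rw [h] at hpp
            exact absurd hpp (by decide)
          omega
        · omega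

/-- Main result: if `f(N)` is larger than about `(7/9) N`, then the three numbers
`f(N)+1, f(N)+3, f(N)+7` are prime. -/
theorem explicit (N : ℕ) (hN : 6 ≤ N) (hf : 7 * N + 6 * Nat.sqrt (N + 2) < 9 * f N + 33) :
    (f N + 1).Prime ∧ (f N + 3).Prime ∧ (f N + 7).Prime := by
  classical
  by_contra hcon
  have hnt : ¬ Tri (f N + 1) := hcon
  -- a maximal checkpoint
  have hbase : Chk N 1 := by
    refine ⟨le_rfl, (f_spec N hN).1, ?_⟩
    have := S_one N hN
    omega
  have hne : ((Finset.range (f N + 1)).filter (fun n => Chk N n)).Nonempty :=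
    ⟨1, by
      rw [Finset.mem_filter, Finset.mem_range]
      exact ⟨by have := (f_spec N hN).1; omega, hbase⟩⟩
  set n := ((Finset.range (f N + 1)).filter (fun n => Chk N n)).max' hne with hn
  have hmem := ((Finset.range (f N + 1)).filter (fun n => Chk N n)).max'_mem hne
  rw [← hn, Finset.mem_filter, Finset.mem_range] at hmem
  have hlast : f N < n + 3 * Nat.sqrt (N + 2) := by
    by_contra hle
    push Not at hle
    obtain ⟨m, hm1, hm2⟩ := chk_next N hN hnt n hmem.2 hle
    have h1 : m ∈ (Finset.range (f N + 1)).filter (fun n => Chk N n) := by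
      rw [Finset.mem_filter, Finset.mem_range]
      exact ⟨by have := hm2.2.1; omega, hm2⟩
    have h2 := ((Finset.range (f N + 1)).filter (fun n => Chk N n)).le_max' m h1
    omega
  obtain ⟨h1, h2, h3⟩ := hmem.2
  have h4 := S_anti N hN n (f N) h1 h2 le_rfl
  rw [S_f N hN] at h4
  have h5 : c (S N n) ≤ 2 := by unfold c; split_ifs <;> omega
  omega

end Pool.Agent.TS33
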