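import Pool.Agent.TS33.Base

/-!
# TS33/Dyn: the levels of the recursion (MP_3f8e47_nt)

`V x = (3 S x + x) / 3`. After a jump at `x` the next jump comes after at most `3 r` steps, `r` its least prime factor, so `V`
grows by at most one, and it grows only if the next jump is a prime `r ≥ 5` which divides `(w - 1) (w + 2) (3 w + 23)` for the
new level `w`.
-/

set_option autoImplicit false

namespace Pool.Agent.TS33

/-- no prime in `[5, G]` divides `(w - 1) (w + 2) (3 w + 23)` -/
def Blocked (G w : ℕ) : Prop :=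
  ∀ l : ℕ, l.Prime → 5 ≤ l → l ≤ G → ¬ (l : ℤ) ∣ ((w : ℤ) - 1) * (w + 2) * (3 * w + 23)

open Classical in
/-- the number of blocked levels in `[A, B)` -/
noncomputable def cnt (G A B : ℕ) : ℕ := ((Finset.Ico A B).filter (fun w => Blocked G w)).card

theorem cnt_mono {G A B C : ℕ} (h : B ≤ C) : cnt G A B ≤ cnt G A C := by
  classical
  unfold cnt
  apply Finset.card_le_card
  apply Finset.filter_subset_filter
  exact Finset.Ico_subset_Ico_right h

theorem cnt_succ_le {G A B : ℕ} : cnt G A (B + 1) ≤ cnt G A B + 1 := by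
  classical
  unfold cnt
  have h : (Finset.Ico A (B + 1)).filter (fun w => Blocked G w) ⊆
      insert B ((Finset.Ico A B).filter (fun w => Blocked G w)) := by
    intro y hy
    rw [Finset.mem_filter, Finset.mem_Ico] at hy
    rw [Finset.mem_insert, Finset.mem_filter, Finset.mem_Ico]
    by_cases h : y = B
    · exact Or.inl h
    · exact Or.inr ⟨⟨hy.1.1, by omega⟩, hy.2⟩
  exact (Finset.card_le_card h).trans (Finset.card_insert_le _ _)

theorem cnt_succ_eq {G A B : ℕ} (hB : ¬ Blocked G B) : cnt G A (B + 1) ≤ cnt G A B := by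
  classical
  unfold cnt
  apply Finset.card_le_card
  intro y hy
  rw [Finset.mem_filter, Finset.mem_Ico] at hy ⊢
  have h : y ≠ B := by
    rintro rfl
    exact hB hy.2
  exact ⟨⟨hy.1.1, by omega⟩, hy.2⟩

/-- the level -/
noncomputable def V (N x : ℕ) : ℕ := (3 * S N x + x) / 3

/-- the first jump after a checkpoint -/
theorem first_jump (N : ℕ) (hN : 6 ≤ N) (x j : ℕ) (hx : 1 ≤ x) (hj : x ≤ j) (hjf : j < f N)
    (h : 2 ≤ g N j) : ∃ k, x ≤ k ∧ k < f N ∧ S N k = S N x ∧ 2 ≤ g N k ∧
      ∀ i, x ≤ i → i < k → S N i = S N x ∧ g N i = 1 := by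
  classical
  have hex : ∃ k, x ≤ k ∧ 2 ≤ g N k := ⟨j, hj, h⟩
  have hk := Nat.find_spec hex
  have hkj : Nat.find hex ≤ j := Nat.find_min' hex ⟨hj, h⟩
  obtain ⟨k, hkd⟩ : ∃ k, k = Nat.find hex := ⟨_, rfl⟩
  rw [← hkd] at hk hkj
  have hone : ∀ i, x ≤ i → i < k → g N i = 1 := by
    intro i h1 h2
    have h3 : ¬ (x ≤ i ∧ 2 ≤ g N i) := Nat.find_min hex (by rw [← hkd]; exact h2)
    have h4 := g_pos N i
    by_contra h5
    exact h3 ⟨h1, by omega⟩
  have key : ∀ i, x ≤ i → i ≤ k → S N i = S N x := by
    intro i hi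
    induction i, hi using Nat.le_induction with
    | base => intro _; rfl
    | succ i hi ih =>
      intro hik
      have h0 := ih (by omega)
      have h1 := hone i hi (by omega)
      have h3 := S_succ N hN i (by omega) (by omega)
      omega
  exact ⟨k, hk.1, by omega, key k hk.1 le_rfl, hk.2, fun i h1 h2 => ⟨key i h1 h2.le, hone i h1 h2⟩⟩

/-- the change of the level at a jump -/
theorem level (N : ℕ) (hN : 6 ≤ N) (x k : ℕ) (hx : 1 ≤ x) (hxk : x ≤ k) (hk : k < f N)
    (hS : S N k = S N x) (hg : 2 ≤ g N k) (hone : ∀ i, x ≤ i → i < k → S N i = S N x ∧ g N i = 1) :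
    V N (k + 1) ≤ V N x ∨ V N (k + 1) = V N x + 1 ∧ (g N k).Prime ∧ 5 ≤ g N k ∧
      (g N k : ℤ) ∣ (((V N x + 1 : ℕ) : ℤ) - 1) * ((V N x + 1 : ℕ) + 2) * (3 * (V N x + 1 : ℕ) + 23) := by
  have hsucc := S_succ N hN k (by omega) hk
  have hdl := g_dvd_left N hN k (by omega) hk
  have hdr := g_dvd_right N k
  rw [hS] at hsucc hdl
  have hVx : V N x = (3 * S N x + x) / 3 := rfl
  have hVk : V N (k + 1) = (3 * S N (k + 1) + (k + 1)) / 3 := rfl
  obtain ⟨r, hr⟩ : ∃ r, r = (g N k).minFac := ⟨_, rfl⟩
  have hrp : r.Prime := by rw [hr]; exact Nat.minFac_prime (by omega)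
  have hrg : r ∣ g N k := by rw [hr]; exact Nat.minFac_dvd _
  -- waiting time
  have hwait : ∀ d, 0 < d → r ∣ d → (∀ m, r ∣ S N x + b m ∨ ¬ (m + d) % 3 = (k + 1) % 3) →
      (∀ m, m + d = k + 1 → r ∣ m + b m) → k + 1 ≤ x + d := by
    intro d hd hrd h1 h2
    by_contra hcon
    push Not at hcon
    obtain ⟨i, hi⟩ : ∃ i, i + d = k := ⟨k - d, by omega⟩
    have h3 := hone i (by omega) (by omega)
    have h4 : r ∣ g N i := by
      apply dvd_g N hN i (by omega) (by omega)
      · rw [h3.1]
        rcases h1 (i + 1) with h | h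
        · exact h
        · exact absurd (by rw [show i + 1 + d = k + 1 by omega]) h
      · exact h2 (i + 1) (by omega)
    rw [h3.2] at h4
    have := Nat.le_of_dvd one_pos h4
    have := hrp.two_le
    omega
  have hrl : r ∣ S N x + b (k + 1) := hrg.trans hdl
  have hrr : r ∣ k + 1 + b (k + 1) := hrg.trans hdr
  have hgle : r ≤ g N k := Nat.le_of_dvd (by omega) hrg
  rcases Nat.lt_or_ge r 5 with h5 | h5
  · -- r = 2 or r = 3
    left
    have h23 : r = 2 ∨ r = 3 := by
      have h2 := hrp.two_le
      have h4 : r ≠ 4 := by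
        intro h
        rw [h] at hrp
        exact absurd hrp (by decide)
      omega
    rcases h23 with h | h
    · have ht : k + 1 ≤ x + 2 := by
        apply hwait 2 (by norm_num) (by rw [h])
        · intro m
          left
          rw [h] at hrl ⊢
          rcases b_cases (k + 1) with h' | h' | h' <;> rw [h'.2] at hrl <;>
            rcases b_cases m with h'' | h'' | h'' <;> rw [h''.2] <;> omega
        · intro m hm
          rw [h] at hrr ⊢
          rcases b_cases (k + 1) with h' | h' | h' <;> rw [h'.2] at hrr <;>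
            rcases b_cases m with h'' | h'' | h'' <;> rw [h''.2] <;> omega
      rw [hVx, hVk]
      apply Nat.div_le_div_right
      omega
    · have ht : k + 1 ≤ x + 3 := by
        apply hwait 3 (by norm_num) (by rw [h])
        · intro m
          by_cases hm : (m + 3) % 3 = (k + 1) % 3
          · left
            have hb : b m = b (k + 1) := by
              unfold b
              rw [show m % 3 = (k + 1) % 3 by omega]
            rw [hb]
            exact hrl
          · exact Or.inr hm
        · intro m hm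
          have hb : b m = b (k + 1) := by
            unfold b
            rw [show m % 3 = (k + 1) % 3 by omega]
          rw [hb]
          rw [h] at hrr ⊢
          omega
      rw [hVx, hVk]
      apply Nat.div_le_div_right
      omega
  · have ht : k + 1 ≤ x + 3 * r := by
      apply hwait (3 * r) (by omega) (dvd_mul_left r 3)
      · intro m
        by_cases hm : (m + 3 * r) % 3 = (k + 1) % 3
        · left
          have hb : b m = b (k + 1) := by
            unfold b
            rw [show m % 3 = (k + 1) % 3 by omega]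
          rw [hb]
          exact hrl
        · exact Or.inr hm
      · intro m hm
        have hb : b m = b (k + 1) := by
          unfold b
          rw [show m % 3 = (k + 1) % 3 by omega]
        rw [hb]
        have h1 : k + 1 + b (k + 1) = (m + b (k + 1)) + r * 3 := by omega
        rw [h1] at hrr
        exact (Nat.dvd_add_left (dvd_mul_right r 3)).1 hrr
    by_cases hgr : g N k = r
    · by_cases hV : V N (k + 1) ≤ V N x
      · exact Or.inl hV
      · right
        have h1 : V N (k + 1) = V N x + 1 := by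
          rw [hVx, hVk] at hV ⊢
          omega
        refine ⟨h1, by rw [hgr]; exact hrp, by omega, ?_⟩
        rw [hgr]
        obtain ⟨w, hw⟩ : ∃ w, w = V N x + 1 := ⟨_, rfl⟩
        rw [← hw]
        -- kappa = 3 w - (3 S + (k + 1) - 3 r)
        have e1 : 3 * w + 3 * r ≤ 3 * S N x + (k + 1) + 3 := by
          rw [hVx, hVk] at h1
          omega
        have e2 : 3 * S N x + x < 3 * w := by
          rw [hw, hVx]
          omega
        have hcop : IsCoprime (r : ℤ) 3 := by
          have h2 : Nat.Coprime r 3 := by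
            rw [Nat.coprime_primes hrp Nat.prime_three]
            omega
          exact_mod_cast Nat.isCoprime_iff_coprime.2 h2
        have hl : (r : ℤ) ∣ (S N x : ℤ) + b (k + 1) := by exact_mod_cast hrl
        have hr' : (r : ℤ) ∣ (k : ℤ) + 1 + b (k + 1) := by exact_mod_cast hrr
        have hsum : (r : ℤ) ∣ 3 * ((S N x : ℤ) + b (k + 1)) + ((k : ℤ) + 1 + b (k + 1)) - r * 3 :=
          dvd_sub (dvd_add (hl.mul_left 3) hr') (dvd_mul_right _ _)
        obtain ⟨κ, hκ⟩ : ∃ κ : ℤ, κ = 3 * (w : ℤ) - (3 * (S N x : ℤ) + ((k : ℤ) + 1) - 3 * r) := ⟨_, rfl⟩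
        have hκ1 : 1 ≤ κ := by omega
        have hκ3 : κ ≤ 3 := by omega
        have hmod : ((k : ℤ) + 1 + κ) % 3 = 0 := by omega
        rcases (by omega : κ = 1 ∨ κ = 2 ∨ κ = 3) with h | h | h
        · have hb : b (k + 1) = 6 := by
            unfold b
            rw [if_neg (by omega), if_pos (by omega)]
          rw [hb] at hsum
          have h3 : 3 * ((S N x : ℤ) + (6 : ℕ)) + ((k : ℤ) + 1 + (6 : ℕ)) - r * 3 = 3 * (w : ℤ) + 23 := by
            push_cast
            omega
          rw [h3] at hsum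
          exact hsum.mul_left _
        · have hb : b (k + 1) = 2 := by
            unfold b
            rw [if_pos (by omega)]
          rw [hb] at hsum
          have h3 : 3 * ((S N x : ℤ) + (2 : ℕ)) + ((k : ℤ) + 1 + (2 : ℕ)) - r * 3 = 3 * ((w : ℤ) + 2) := by
            push_cast
            omega
          rw [h3] at hsum
          have h4 := hcop.dvd_of_dvd_mul_left hsum
          exact (h4.mul_left _).mul_right _
        · have hb : b (k + 1) = 0 := by
            unfold b
            rw [if_neg (by omega), if_neg (by omega)]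
          rw [hb] at hsum
          have h3 : 3 * ((S N x : ℤ) + (0 : ℕ)) + ((k : ℤ) + 1 + (0 : ℕ)) - r * 3 = 3 * ((w : ℤ) - 1) := by
            push_cast
            omega
          rw [h3] at hsum
          have h4 := hcop.dvd_of_dvd_mul_left hsum
          exact (h4.mul_right _).mul_right _
    · left
      obtain ⟨c, hc⟩ := hrg
      have hc2 : 2 ≤ c := by
        by_contra hcon
        push Not at hcon
        interval_cases c
        · omega
        · exact hgr (by omega)
      have h2 : r * 2 ≤ g N k := by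
        rw [hc]
        exact Nat.mul_le_mul_left r hc2
      rw [hVx, hVk]
      apply Nat.div_le_div_right
      omega

/-- checkpoints for the levels -/
def ChkV (N G x : ℕ) : Prop :=
  1 ≤ x ∧ x ≤ f N ∧ G * cnt G (V N 1 + 1) (V N x + 1) + S N x ≤ S N 1

theorem chkV_next (N : ℕ) (hN : 6 ≤ N) (G x j : ℕ) (hc : ChkV N G x) (hj : x ≤ j) (hjf : j < f N)
    (h : 2 ≤ g N j) : ∃ y, x < y ∧ ChkV N G y := by
  obtain ⟨hx1, hx2, hinv⟩ := hc
  obtain ⟨k, hk1, hk2, hk3, hk4, hk5⟩ := first_jump N hN x j hx1 hj hjf h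
  have hsucc := S_succ N hN k (by omega) hk2
  rw [hk3] at hsucc
  refine ⟨k + 1, by omega, by omega, hk2, ?_⟩
  rcases level N hN x k hx1 hk1 hk2 hk3 hk4 hk5 with hl | ⟨hl, hp, hp5, hd⟩
  · have h1 : cnt G (V N 1 + 1) (V N (k + 1) + 1) ≤ cnt G (V N 1 + 1) (V N x + 1) :=
      cnt_mono (by omega)
    have h2 := Nat.mul_le_mul_left G h1
    omega
  · rw [hl]
    by_cases hB : Blocked G (V N x + 1)
    · have h1 : G < g N k := by
        by_contra hcon
        push Not at hcon
        exact hB (g N k) hp hp5 hcon hd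
      have h2 : cnt G (V N 1 + 1) (V N x + 1 + 1) ≤ cnt G (V N 1 + 1) (V N x + 1) + 1 := cnt_succ_le
      have h3 := Nat.mul_le_mul_left G h2
      rw [Nat.mul_add, Nat.mul_one] at h3
      omega
    · have h2 : cnt G (V N 1 + 1) (V N x + 1 + 1) ≤ cnt G (V N 1 + 1) (V N x + 1) := cnt_succ_eq hB
      have h3 := Nat.mul_le_mul_left G h2
      omega

/-- waiting time for a prime different from `3` -/
theorem wait (p n : ℕ) (hpp : p.Prime) (hcop : Nat.Coprime 3 p) (r β : ℕ) (hr : r < 3) :
    ∃ j, n ≤ j ∧ j < n + 3 * p ∧ (j + 1) % 3 = r ∧ p ∣ j + 1 + β := by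
  have hp2 := hpp.two_le
  obtain ⟨x, hx1, hx2⟩ := Nat.chineseRemainder hcop r ((p - β % p) % p)
  have h3p : 0 < 3 * p := by omega
  obtain ⟨y, hy⟩ : ∃ y, y = n + 1 + ((x + (3 * p) * (n + 1)) - (n + 1)) % (3 * p) := ⟨_, rfl⟩
  have hy1 : y ≡ x [MOD 3 * p] := by
    rw [hy]
    have h1 : n + 1 ≤ x + (3 * p) * (n + 1) := by nlinarith
    have h2 : n + 1 + ((x + (3 * p) * (n + 1)) - (n + 1)) % (3 * p) ≡
        n + 1 + ((x + (3 * p) * (n + 1)) - (n + 1)) [MOD 3 * p] :=
      Nat.ModEq.add_left _ (Nat.mod_modEq _ _)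
    have h3 : n + 1 + ((x + (3 * p) * (n + 1)) - (n + 1)) = x + (3 * p) * (n + 1) := by
      omega
    rw [h3] at h2
    refine h2.trans ?_
    unfold Nat.ModEq
    rw [Nat.add_mul_mod_self_left]
  have hylt : ((x + (3 * p) * (n + 1)) - (n + 1)) % (3 * p) < 3 * p := Nat.mod_lt _ h3p
  refine ⟨y - 1, by omega, by omega, ?_, ?_⟩
  · have h1 : y - 1 + 1 = y := by omega
    rw [h1]
    have h2 : y ≡ x [MOD 3] := hy1.of_mul_right p
    have h4 : y ≡ r [MOD 3] := h2.trans hx1
    unfold Nat.ModEq at h4
    rw [h4, Nat.mod_eq_of_lt hr]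
  · have h1 : y - 1 + 1 = y := by omega
    rw [h1]
    have h2 : y ≡ x [MOD p] := hy1.of_mul_left 3
    have h4 : y ≡ (p - β % p) % p [MOD p] := h2.trans hx2
    have h5 : y + β ≡ 0 [MOD p] := by
      have h6 : y + β ≡ (p - β % p) + β % p [MOD p] := by
        apply Nat.ModEq.add
        · exact h4.trans (Nat.mod_modEq _ _)
        · exact (Nat.mod_modEq _ _).symm
      have h7 : (p - β % p) + β % p = p := by
        have := Nat.mod_lt β (by omega : p > 0)
        omega
      rw [h7] at h6
      exact h6.trans (by unfold Nat.ModEq; simp)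
    exact (Nat.modEq_zero_iff_dvd).mp h5

/-- The last checkpoint: no jump after it, and few blocked levels before it. -/
theorem last_state (N : ℕ) (hN : 6 ≤ N) (G : ℕ) : ∃ x, 1 ≤ x ∧ x ≤ f N ∧
    (∀ q : ℕ, q.Prime → (q ∣ f N + 1 ∨ q ∣ f N + 3 ∨ q ∣ f N + 7) → f N < x + 3 * q) ∧
    G * cnt G (V N 1 + 1) (f N + 1 + x / 3 + 1) + (f N + 1) ≤ S N 1 := by
  classical
  have hbase : ChkV N G 1 := by
    refine ⟨le_rfl, (f_spec N hN).1, ?_⟩
    have : cnt G (V N 1 + 1) (V N 1 + 1) = 0 := by
      unfold cnt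
      rw [Finset.Ico_self, Finset.filter_empty, Finset.card_empty]
    rw [this]
    omega
  have hne : ((Finset.range (f N + 1)).filter (fun x => ChkV N G x)).Nonempty :=
    ⟨1, by
      rw [Finset.mem_filter, Finset.mem_range]
      exact ⟨by have := hbase.2.1; omega, hbase⟩⟩
  obtain ⟨x, hx⟩ : ∃ x, x = ((Finset.range (f N + 1)).filter (fun x => ChkV N G x)).max' hne := ⟨_, rfl⟩
  have hmem := ((Finset.range (f N + 1)).filter (fun x => ChkV N G x)).max'_mem hne
  rw [← hx, Finset.mem_filter, Finset.mem_range] at hmem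
  have hno : ∀ j, x ≤ j → j < f N → g N j = 1 := by
    intro j hj1 hj2
    by_contra hcon
    have h1 := g_pos N j
    obtain ⟨y, hy1, hy2⟩ := chkV_next N hN G x j hmem.2 hj1 hj2 (by omega)
    have h4 : y ∈ (Finset.range (f N + 1)).filter (fun x => ChkV N G x) := by
      rw [Finset.mem_filter, Finset.mem_range]
      exact ⟨by have := hy2.2.1; omega, hy2⟩
    have h5 := ((Finset.range (f N + 1)).filter (fun x => ChkV N G x)).le_max' y h4
    omega
  obtain ⟨hx1, hx2, hx3⟩ := hmem.2
  have hconst : ∀ j, x ≤ j → j ≤ f N → S N j = S N x := by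
    intro i hi
    induction i, hi using Nat.le_induction with
    | base => intro _; rfl
    | succ i hi ih =>
      intro hik
      have h0 := ih (by omega)
      have h1 := hno i hi (by omega)
      have h3 := S_succ N hN i (by omega) (by omega)
      omega
  have hSx : S N x = f N + 1 := by rw [← hconst (f N) hx2 le_rfl, S_f N hN]
  refine ⟨x, hx1, hx2, ?_, ?_⟩
  · intro q hq hqd
    by_contra hcon
    push Not at hcon
    have hq2 := hq.two_le
    have key : ∀ j, x ≤ j → j < f N → ∀ β, b (j + 1) = β → q ∣ f N + 1 + β → q ∣ j + 1 + β → False := by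
      intro j hj1 hj2 β hb h1 h2
      have h3 : q ∣ g N j := by
        apply dvd_g N hN j (by omega) hj2
        · rw [hconst j hj1 hj2.le, hSx, hb]
          exact h1
        · rw [hb]
          exact h2
      rw [hno j hj1 hj2] at h3
      have := Nat.le_of_dvd one_pos h3
      omega
    by_cases hq3 : q = 3
    · subst hq3
      have hj : ∃ j, x ≤ j ∧ j ≤ x + 2 ∧ (j + 1) % 3 = (f N + 1) % 3 := by
        rcases (by omega : (f N + 3 - x) % 3 = 0 ∨ (f N + 3 - x) % 3 = 1 ∨ (f N + 3 - x) % 3 = 2)
          with h | h | h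
        · exact ⟨x, by omega, by omega, by omega⟩
        · exact ⟨x + 1, by omega, by omega, by omega⟩
        · exact ⟨x + 2, by omega, by omega, by omega⟩
      obtain ⟨j, hj1, hj2, hj3⟩ := hj
      have hcase : (f N + 1) % 3 = 0 ∨ (f N + 1) % 3 = 1 := by
        rcases hqd with h | h | h <;> omega
      rcases hcase with h | h
      · exact key j hj1 (by omega) 0 (by unfold b; rw [if_neg (by omega), if_neg (by omega)])
          (by omega) (by omega)
      · exact key j hj1 (by omega) 2 (by unfold b; rw [if_pos (by omega)]) (by omega) (by omega)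
    · have hcop : Nat.Coprime 3 q := by
        rw [Nat.coprime_primes Nat.prime_three hq]
        exact fun h => hq3 h.symm
      rcases hqd with h | h | h
      · obtain ⟨j, hj1, hj2, hj3, hj4⟩ := wait q x hq hcop 0 0 (by norm_num)
        exact key j hj1 (by omega) 0 (by unfold b; rw [if_neg (by omega), if_neg (by omega)]) h hj4
      · obtain ⟨j, hj1, hj2, hj3, hj4⟩ := wait q x hq hcop 1 2 (by norm_num)
        exact key j hj1 (by omega) 2 (by unfold b; rw [if_pos (by omega)]) h hj4
      · obtain ⟨j, hj1, hj2, hj3, hj4⟩ := wait q x hq hcop 2 6 (by norm_num)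
        exact key j hj1 (by omega) 6 (by unfold b; rw [if_neg (by omega), if_pos (by omega)]) h hj4
  · have hV : V N x = f N + 1 + x / 3 := by
      unfold V
      rw [hSx]
      omega
    rw [hV, hSx] at hx3
    exact hx3

/-- The form used for the asymptotic statement. -/
theorem last_state8 (N : ℕ) (hN : 6 ≤ N) (hT : ¬ Tri (f N + 1)) (G : ℕ) : ∃ x, x ≤ f N ∧
    f N < x + 3 * Nat.sqrt (N + 2) ∧ G * cnt G (N - 3) (f N + 2 + x / 3) ≤ N := by
  obtain ⟨x, hx1, hx2, hq, hc⟩ := last_state N hN G
  have hS1 := S_one N hN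
  have hf5 : f N + 5 ≤ N := by
    have h1 := S_anti N hN 1 (f N) le_rfl (f_spec N hN).1 le_rfl
    rw [S_f N hN] at h1
    omega
  refine ⟨x, hx2, ?_, ?_⟩
  · have key : ∀ m, m ≤ f N + 7 → 2 ≤ m → ¬ m.Prime →
        (∀ q, q ∣ m → q ∣ f N + 1 ∨ q ∣ f N + 3 ∨ q ∣ f N + 7) → f N < x + 3 * Nat.sqrt (N + 2) := by
      intro m hm hm2 hmp hdv
      have h1 : m.minFac ^ 2 ≤ m := Nat.minFac_sq_le_self (by omega) hmp
      have h2 := hq m.minFac (Nat.minFac_prime (by omega)) (hdv _ (Nat.minFac_dvd m))
      have h3 : m.minFac ≤ Nat.sqrt (N + 2) := by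
        rw [Nat.le_sqrt]
        have h4 : m.minFac ^ 2 = m.minFac * m.minFac := by ring
        omega
      omega
    unfold Tri at hT
    by_cases h1 : (f N + 1).Prime
    · by_cases h2 : (f N + 1 + 2).Prime
      · by_cases h3 : (f N + 1 + 6).Prime
        · exact absurd ⟨h1, h2, h3⟩ hT
        · exact key (f N + 1 + 6) (by omega) (by omega) h3 fun q h => Or.inr (Or.inr h)
      · exact key (f N + 1 + 2) (by omega) (by omega) h2 fun q h => Or.inr (Or.inl h)
    · have hf1 := (f_spec N hN).1
      exact key (f N + 1) (by omega) (by omega) h1 fun q h => Or.inl h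
  · have hV1 : V N 1 + 1 = N - 3 := by
      unfold V
      omega
    have h2 : f N + 1 + x / 3 + 1 = f N + 2 + x / 3 := by omega
    rw [hV1, h2] at hc
    omega

end Pool.Agent.TS33
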