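import Mathlib

/-!
# TS33/FinS8: the final arithmetic of the threshold `3 / 4`
-/

set_option autoImplicit false

namespace Pool.Agent.TS33

theorem fin_abs {cnt : ℕ → ℕ → ℕ → ℕ} {f : ℕ → ℕ} {T : ℕ → Prop}
    (sv : ∀ K : ℝ, 0 ≤ K → ∃ G Q : ℕ, ∀ A D : ℕ, K * ((D : ℝ) - Q) ≤ G * cnt G A (A + D))
    (ls : ∀ N, 6 ≤ N → ¬ T N → ∀ G : ℕ, ∃ x, x ≤ f N ∧ f N < x + 3 * Nat.sqrt (N + 2) ∧
      G * cnt G (N - 3) (f N + 2 + x / 3) ≤ N) {e : ℝ} (he : 0 < e) :
    ∃ N₀ : ℕ, ∀ N, N₀ ≤ N → (3 / 4 + e) * (N : ℝ) ≤ f N → T N := by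
  obtain ⟨G, Q, hs⟩ := sv (2 / e) (by positivity)
  obtain ⟨B, hB⟩ := exists_nat_gt ((3 * (Q + 1) / e) + (12 / e) ^ 2)
  refine ⟨B + 9, fun N hN hf => ?_⟩
  by_contra hT
  obtain ⟨x, hx1, hx2, hx3⟩ := ls N (by omega) hT G
  have hN9 : 9 ≤ N := by omega
  have hN0 : (9 : ℝ) ≤ N := by exact_mod_cast hN9
  have hBN : (B : ℝ) ≤ N := by exact_mod_cast (by omega : B ≤ N)
  -- the square root
  obtain ⟨s, hsq⟩ : ∃ s, s = Nat.sqrt (N + 2) := ⟨_, rfl⟩
  rw [← hsq] at hx2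
  have hs2 : s * s ≤ N + 2 := by
    rw [hsq]
    exact Nat.sqrt_le (N + 2)
  have hs2' : (s : ℝ) * s ≤ N + 2 := by exact_mod_cast hs2
  have hs0 : (0 : ℝ) ≤ s := Nat.cast_nonneg s
  have hse : (s : ℝ) ≤ e / 6 * N := by
    by_contra hcon
    push Not at hcon
    have h1 : (12 / e) ^ 2 < N := by
      have : 0 ≤ 3 * ((Q : ℝ) + 1) / e := by positivity
      linarith
    have h2 : 0 ≤ e / 6 * N := by positivity
    have h3 : (e / 6 * N) * (e / 6 * N) < s * s := mul_self_lt_mul_self h2 hcon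
    have h4 : (e / 6 * N) * (e / 6 * N) < 2 * N := by linarith
    have h5 : e ^ 2 * N < 72 := by
      have h6 : (N : ℝ) * (e ^ 2 * N) < N * 72 := by nlinarith
      exact lt_of_mul_lt_mul_left h6 (by linarith)
    have h6 : 144 < e ^ 2 * N := by
      rw [div_pow, div_lt_iff₀ (by positivity)] at h1
      linarith
    linarith
  have hQe : 3 * ((Q : ℝ) + 1) ≤ e * N := by
    have h1 : 3 * ((Q : ℝ) + 1) / e < N := by
      have : 0 ≤ (12 / e) ^ 2 := by positivity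
      linarith
    rw [div_lt_iff₀ he] at h1
    linarith
  -- the sieve
  obtain ⟨D, hD⟩ : ∃ D, D = f N + 2 + x / 3 - (N - 3) := ⟨_, rfl⟩
  rcases Nat.lt_or_ge (f N + 2 + x / 3) (N - 3) with hlt | hge
  · -- impossible: `f + x / 3` is at least about `N`
    have h1 : f N + 2 + x / 3 + 3 < N := by omega
    have h2 : 3 * f N + x < 3 * N := by omega
    have h3 : 4 * f N < 3 * N + 3 * s := by omega
    have h3' : 4 * (f N : ℝ) < 3 * N + 3 * s := by exact_mod_cast h3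
    nlinarith
  · have hAD : N - 3 + D = f N + 2 + x / 3 := by omega
    have h1 := hs (N - 3) D
    rw [hAD] at h1
    have h2 : (G : ℝ) * cnt G (N - 3) (f N + 2 + x / 3) ≤ N := by exact_mod_cast hx3
    have h3 : 2 / e * ((D : ℝ) - Q) ≤ N := h1.trans h2
    have h4 : 2 * ((D : ℝ) - Q) ≤ e * N := by
      have h5 := mul_le_mul_of_nonneg_left h3 he.le
      have h6 : e * (2 / e * ((D : ℝ) - Q)) = 2 * (D - Q) := by field_simp
      linarith
    have h5 : 4 * f N < 3 * D + 3 * N + 3 * s := by omega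
    have h5' : 4 * (f N : ℝ) < 3 * D + 3 * N + 3 * s := by exact_mod_cast h5
    nlinarith

end Pool.Agent.TS33
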