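import Pool.Agent.TS33.Sieve43
import Pool.Agent.TS33.FinS8

/-!
# TS33/Fin43: the threshold `3 / 4` (MP_3f8e47_nt)
-/

set_option autoImplicit false

namespace Pool.Agent.TS33

/-- for every `e > 0` and all large `N`: if `f N ≥ (3 / 4 + e) N` then `f N + 1` begins a prime triple -/
theorem three_quarters {e : ℝ} (he : 0 < e) :
    ∃ N₀ : ℕ, ∀ N : ℕ, N₀ ≤ N → (3 / 4 + e) * N ≤ f N → Tri (f N + 1) :=
  fin_abs (cnt := cnt) (f := f) (T := fun N => Tri (f N + 1)) sieve
    (fun N hN hT G => last_state8 N hN hT G) he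

end Pool.Agent.TS33
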