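import Mathlib

/-!
# TS33/Growth43: `G ∏ (1 - 3 / l)` over the primes `5 ≤ l ≤ G` is unbounded
-/

set_option autoImplicit false

namespace Pool.Agent.TS33.G43

/-- the factor of `n` -/
noncomputable def fac (n : ℕ) : ℝ := if n.Prime then 1 - 3 / (n : ℝ) else 1

/-- the product up to `G` -/
noncomputable def dens (G : ℕ) : ℝ := ∏ l ∈ Finset.Ico 5 (G + 1), fac l

theorem fac_pos {n : ℕ} (hn : 5 ≤ n) : 0 < fac n := by
  unfold fac
  split_ifs
  · have h : (5 : ℝ) ≤ n := by exact_mod_cast hn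
    have h2 : 3 / (n : ℝ) < 1 := by
      rw [div_lt_one (by linarith)]
      linarith
    linarith
  · exact one_pos

theorem dens_pos (G : ℕ) : 0 < dens G :=
  Finset.prod_pos fun l hl => fac_pos (Finset.mem_Ico.1 hl).1

/-- the factor of `30 m + 29 + s` in the wheel -/
noncomputable def wh (m s : ℕ) : ℝ :=
  if Nat.Coprime (s + 29) 30 then 1 - 3 / ((30 * m + 29 + s : ℕ) : ℝ) else 1

theorem wh_nonneg (m s : ℕ) : 0 ≤ wh m s := by
  unfold wh
  split_ifs
  · have h : (29 : ℝ) ≤ ((30 * m + 29 + s : ℕ) : ℝ) := by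
      exact_mod_cast (by omega : 29 ≤ 30 * m + 29 + s)
    have : 3 / ((30 * m + 29 + s : ℕ) : ℝ) ≤ 1 := by
      rw [div_le_one (by linarith)]
      linarith
    linarith
  · exact zero_le_one

theorem wh_le (m s : ℕ) : wh m s ≤ fac (30 * m + 29 + s) := by
  unfold wh fac
  split_ifs with h1 h2
  · exact le_rfl
  · have : 0 ≤ 3 / ((30 * m + 29 + s : ℕ) : ℝ) := by positivity
    linarith
  · exfalso
    rename_i h2
    apply h1
    have h3 : Nat.Coprime (30 * m + 29 + s) 30 := by
      rw [Nat.Prime.coprime_iff_not_dvd h2]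
      intro h
      have h4 := Nat.le_of_dvd (by norm_num) h
      have h5 : 30 * m + 29 + s = 29 ∨ 30 * m + 29 + s = 30 := by omega
      rcases h5 with h5 | h5
      · rw [h5] at h
        omega
      · rw [h5] at h2
        norm_num at h2
    have e : 30 * m + 29 + s = (s + 29) + 30 * m := by ring
    rw [e, Nat.coprime_add_mul_left_left] at h3
    exact h3
  · exact le_rfl

/-- the numerator of the block -/
noncomputable def num (x : ℝ) : ℝ := (30 * x + 26) * (30 * x + 34) * (30 * x + 38) * (30 * x + 40) * (30 * x + 44) *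
  (30 * x + 46) * (30 * x + 50) * (30 * x + 58)

/-- the denominator of the block -/
noncomputable def den (x : ℝ) : ℝ := (30 * x + 29) * (30 * x + 31) * (30 * x + 37) * (30 * x + 41) * (30 * x + 43) *
  (30 * x + 47) * (30 * x + 49) * (30 * x + 53)

theorem num_den {x : ℝ} (hx : 0 ≤ x) : (6 * (x + 2) + 1) * den x ≤ 6 * (x + 2) * num x := by
  have e : 6 * (x + 2) * num x - (6 * (x + 2) + 1) * den x =
      1590117574877 + 10971295387074 * x + 30849794517600 * x ^ 2 + 47181592281600 * x ^ 3 +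
        43391918052000 * x ^ 4 + 24705664200000 * x ^ 5 + 8521718400000 * x ^ 6 +
        1627128000000 * x ^ 7 + 131220000000 * x ^ 8 := by
    unfold num den
    ring
  have h : 0 ≤ 6 * (x + 2) * num x - (6 * (x + 2) + 1) * den x := by
    rw [e]
    positivity
  linarith

theorem block (m : ℕ) : ∏ s ∈ Finset.range 30, wh m s = num m * (30 * m + 28) / (den m * (30 * m + 58)) := by
  have hx : (0 : ℝ) ≤ m := Nat.cast_nonneg m
  have e : ∏ s ∈ Finset.range 30, wh m s = (1 - 3 / (30 * (m : ℝ) + 29)) * (1 - 3 / (30 * (m : ℝ) + 31)) *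
      (1 - 3 / (30 * (m : ℝ) + 37)) * (1 - 3 / (30 * (m : ℝ) + 41)) * (1 - 3 / (30 * (m : ℝ) + 43)) *
      (1 - 3 / (30 * (m : ℝ) + 47)) * (1 - 3 / (30 * (m : ℝ) + 49)) * (1 - 3 / (30 * (m : ℝ) + 53)) := by
    simp only [Finset.prod_range_succ, Finset.prod_range_zero, wh]
    norm_num [Nat.coprime_iff_gcd_eq_one, add_assoc]
  rw [e]
  unfold num den
  have h29 : 30 * (m : ℝ) + 29 ≠ 0 := by positivity
  have h31 : 30 * (m : ℝ) + 31 ≠ 0 := by positivity
  have h37 : 30 * (m : ℝ) + 37 ≠ 0 := by positivity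
  have h41 : 30 * (m : ℝ) + 41 ≠ 0 := by positivity
  have h43 : 30 * (m : ℝ) + 43 ≠ 0 := by positivity
  have h47 : 30 * (m : ℝ) + 47 ≠ 0 := by positivity
  have h49 : 30 * (m : ℝ) + 49 ≠ 0 := by positivity
  have h53 : 30 * (m : ℝ) + 53 ≠ 0 := by positivity
  have h58 : 30 * (m : ℝ) + 58 ≠ 0 := by positivity
  rw [one_sub_div h29, one_sub_div h31, one_sub_div h37, one_sub_div h41, one_sub_div h43, one_sub_div h47,
    one_sub_div h49, one_sub_div h53]
  rw [show 30 * (m : ℝ) + 29 - 3 = 30 * m + 26 by ring, show 30 * (m : ℝ) + 31 - 3 = 30 * m + 28 by ring,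
    show 30 * (m : ℝ) + 37 - 3 = 30 * m + 34 by ring, show 30 * (m : ℝ) + 41 - 3 = 30 * m + 38 by ring,
    show 30 * (m : ℝ) + 43 - 3 = 30 * m + 40 by ring, show 30 * (m : ℝ) + 47 - 3 = 30 * m + 44 by ring,
    show 30 * (m : ℝ) + 49 - 3 = 30 * m + 46 by ring, show 30 * (m : ℝ) + 53 - 3 = 30 * m + 50 by ring]
  rw [div_mul_div_comm, div_mul_div_comm, div_mul_div_comm, div_mul_div_comm, div_mul_div_comm, div_mul_div_comm,
    div_mul_div_comm, div_eq_div_iff (by positivity) (by positivity)]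
  ring

theorem dens_step (m : ℕ) : dens (30 * m + 28) * (num m * (30 * m + 28) / (den m * (30 * m + 58))) ≤
    dens (30 * (m + 1) + 28) := by
  have e : dens (30 * (m + 1) + 28) = dens (30 * m + 28) * ∏ s ∈ Finset.range 30, fac (30 * m + 29 + s) := by
    unfold dens
    rw [← Finset.prod_Ico_consecutive fac (by omega : 5 ≤ 30 * m + 28 + 1)
      (by omega : 30 * m + 28 + 1 ≤ 30 * (m + 1) + 28 + 1)]
    congr 1
    rw [Finset.prod_Ico_eq_prod_range, show 30 * (m + 1) + 28 + 1 - (30 * m + 28 + 1) = 30 by omega]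
  rw [e, ← block]
  apply mul_le_mul_of_nonneg_left _ (dens_pos _).le
  exact Finset.prod_le_prod (fun s _ => wh_nonneg m s) (fun s _ => wh_le m s)

theorem dens_low (m : ℕ) : (dens 28 * 28) ^ 6 * (((m : ℝ) + 2) / 2) ≤
    (dens (30 * m + 28) * (30 * m + 28)) ^ 6 := by
  induction m with
  | zero => simp
  | succ m ih =>
    have h1 := dens_step m
    have hx : (0 : ℝ) ≤ m := Nat.cast_nonneg m
    set v : ℝ := dens (30 * m + 28) * (30 * m + 28) with hv
    have hv0 : 0 ≤ v := mul_nonneg (dens_pos _).le (by positivity)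
    have hden : 0 < den m := by unfold den; positivity
    have hnum : 0 < num m := by unfold num; positivity
    have hr : 1 + 1 / (6 * ((m : ℝ) + 2)) ≤ num m / den m := by
      rw [le_div_iff₀ hden]
      have h2 := num_den hx
      have h3 : (0 : ℝ) < 6 * ((m : ℝ) + 2) := by positivity
      have h4 : (1 + 1 / (6 * ((m : ℝ) + 2))) * den m = (6 * ((m : ℝ) + 2) + 1) * den m / (6 * (m + 2)) := by
        field_simp
      rw [h4, div_le_iff₀ h3]
      linarith
    have h2 : v * (num m / den m) ≤ dens (30 * (m + 1) + 28) * (30 * ((m + 1 : ℕ) : ℝ) + 28) := by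
      calc v * (num m / den m) = dens (30 * m + 28) * (num m * (30 * m + 28) / (den m * (30 * m + 58))) *
            (30 * ((m + 1 : ℕ) : ℝ) + 28) := by
            rw [hv]
            have h58 : 30 * (m : ℝ) + 58 ≠ 0 := by positivity
            have e : 30 * ((m + 1 : ℕ) : ℝ) + 28 = 30 * (m : ℝ) + 58 := by push_cast; ring
            rw [e]
            field_simp
        _ ≤ _ := mul_le_mul_of_nonneg_right h1 (by positivity)
    have h3 : 1 + 1 / ((m : ℝ) + 2) ≤ (num m / den m) ^ 6 := by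
      have h4 : (0 : ℝ) ≤ 1 / (6 * ((m : ℝ) + 2)) := by positivity
      have h5 := one_add_mul_le_pow (by linarith : (-2 : ℝ) ≤ 1 / (6 * ((m : ℝ) + 2))) 6
      have h6 : ((6 : ℕ) : ℝ) * (1 / (6 * ((m : ℝ) + 2))) = 1 / ((m : ℝ) + 2) := by
        push_cast
        field_simp
      rw [h6] at h5
      exact h5.trans (pow_le_pow_left₀ (by positivity) hr 6)
    have hc : 0 ≤ (dens 28 * 28) ^ 6 := by
      have := dens_pos 28
      positivity
    calc (dens 28 * 28) ^ 6 * ((((m + 1 : ℕ) : ℝ) + 2) / 2)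
        = (dens 28 * 28) ^ 6 * (((m : ℝ) + 2) / 2) * (1 + 1 / ((m : ℝ) + 2)) := by
          have : (m : ℝ) + 2 ≠ 0 := by positivity
          field_simp
          push_cast
          ring
      _ ≤ v ^ 6 * (num m / den m) ^ 6 := mul_le_mul ih h3 (by positivity) (by positivity)
      _ = (v * (num m / den m)) ^ 6 := by ring
      _ ≤ _ := by
          apply pow_le_pow_left₀ _ h2
          positivity

theorem growth (K : ℝ) : ∃ G : ℕ, 5 ≤ G ∧
    K ≤ G * ∏ l ∈ (Finset.Icc 5 G).filter Nat.Prime, (1 - 3 / (l : ℝ)) := by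
  have hc : 0 < (dens 28 * 28) ^ 6 := by
    have := dens_pos 28
    positivity
  obtain ⟨m, hm⟩ := exists_nat_gt (2 * (|K| ^ 6 / (dens 28 * 28) ^ 6))
  refine ⟨30 * m + 28, by omega, ?_⟩
  have h := dens_low m
  have e : ∏ l ∈ (Finset.Icc 5 (30 * m + 28)).filter Nat.Prime, (1 - 3 / (l : ℝ)) = dens (30 * m + 28) := by
    unfold dens fac
    rw [Finset.prod_filter]
    rfl
  rw [e]
  have h1 : |K| ^ 6 ≤ (dens (30 * m + 28) * (30 * m + 28)) ^ 6 := by
    refine le_trans ?_ h
    have h2 : |K| ^ 6 / (dens 28 * 28) ^ 6 ≤ ((m : ℝ) + 2) / 2 := by linarith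
    rw [div_le_iff₀ hc] at h2
    linarith
  have h0 : 0 ≤ dens (30 * m + 28) * (30 * (m : ℝ) + 28) := mul_nonneg (dens_pos _).le (by positivity)
  have h2 := le_of_pow_le_pow_left₀ (by norm_num) h0 h1
  calc K ≤ |K| := le_abs_self K
    _ ≤ dens (30 * m + 28) * (30 * (m : ℝ) + 28) := h2
    _ = ((30 * m + 28 : ℕ) : ℝ) * dens (30 * m + 28) := by
        push_cast
        ring

end Pool.Agent.TS33.G43
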