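import Pool.Agent.TS33.Dyn
import Pool.Agent.TS33.Growth43

/-!
# TS33/Sieve43: the blocked levels are dense enough (three classes)

`w` is blocked if no prime `5 ≤ l ≤ G` divides `(w - 1) (w + 2) (3 w + 23)`. The density of the blocked numbers is at least
`∏ (1 - 3 / l)` over the primes `5 ≤ l ≤ G`.
-/

set_option autoImplicit false

namespace Pool.Agent.TS33

/-- no prime of `T` divides `(w - 1) (w + 2) (3 w + 23)` -/
def Good (T : Finset ℕ) (w : ℕ) : Prop := ∀ l ∈ T, ¬ (l : ℤ) ∣ ((w : ℤ) - 1) * (w + 2) * (3 * w + 23)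

theorem good_period {T : Finset ℕ} {W : ℕ} (hW : ∀ l ∈ T, l ∣ W) (y j : ℕ) (h : Good T y) :
    Good T (y + j * W) := by
  intro l hl hd
  apply h l hl
  have h1 : (l : ℤ) ∣ (W : ℤ) := Int.natCast_dvd_natCast.2 (hW l hl)
  have h2 : ((y + j * W : ℕ) : ℤ) ≡ (y : ℤ) [ZMOD (l : ℤ)] := by
    rw [Int.modEq_iff_dvd]
    push_cast
    have e : (y : ℤ) - (y + j * W) = -(j * W) := by ring
    rw [e, dvd_neg]
    exact Dvd.dvd.mul_left h1 _
  have h3 : (((y + j * W : ℕ) : ℤ) - 1) * (((y + j * W : ℕ) : ℤ) + 2) * (3 * ((y + j * W : ℕ) : ℤ) + 23) ≡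
      ((y : ℤ) - 1) * (y + 2) * (3 * y + 23) [ZMOD (l : ℤ)] :=
    ((h2.sub_right 1).mul (h2.add_right 2)).mul ((h2.mul_left 3).add_right 23)
  exact Int.modEq_zero_iff_dvd.1 (h3.symm.trans (Int.modEq_zero_iff_dvd.2 hd))

theorem lin_le {l : ℕ} (hl : l.Prime) {W : ℕ} (hW : ¬ l ∣ W) (y : ℕ) {α β : ℤ} (hα : ¬ (l : ℤ) ∣ α) :
    ((Finset.range l).filter (fun j => (l : ℤ) ∣ α * ((y + j * W : ℕ) : ℤ) + β)).card ≤ 1 := by
  rw [Finset.card_le_one]
  intro j hj k hk
  rw [Finset.mem_filter, Finset.mem_range] at hj hk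
  have hlp : Prime (l : ℤ) := Nat.prime_iff_prime_int.1 hl
  have h := dvd_sub hj.2 hk.2
  have e : α * ((y + j * W : ℕ) : ℤ) + β - (α * ((y + k * W : ℕ) : ℤ) + β) =
      α * (((j : ℤ) - k) * W) := by
    push_cast
    ring
  rw [e] at h
  rcases hlp.dvd_or_dvd h with h5 | h5
  · exact absurd h5 hα
  rcases hlp.dvd_or_dvd h5 with h6 | h6
  · have h8 := Int.eq_zero_of_abs_lt_dvd h6 (by
      rw [abs_lt]
      constructor <;> omega)
    omega
  · exact absurd (by exact_mod_cast h6) hW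

/-- at most three of the numbers `y + j W`, `j < l`, are bad for the prime `l` -/
theorem bad_le {l : ℕ} (hl : l.Prime) (hl5 : 5 ≤ l) {W : ℕ} (hW : ¬ l ∣ W) (y : ℕ) :
    ((Finset.range l).filter (fun j => (l : ℤ) ∣ (((y + j * W : ℕ) : ℤ) - 1) *
      (((y + j * W : ℕ) : ℤ) + 2) * (3 * ((y + j * W : ℕ) : ℤ) + 23))).card ≤ 3 := by
  classical
  have hlp : Prime (l : ℤ) := Nat.prime_iff_prime_int.1 hl
  have h1 : ¬ (l : ℤ) ∣ 1 := hlp.not_dvd_one
  have h3 : ¬ (l : ℤ) ∣ 3 := by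
    intro h
    have := Int.le_of_dvd (by norm_num) h
    omega
  have a1 := lin_le hl hW y (β := -1) h1
  have a2 := lin_le hl hW y (β := 2) h1
  have a3 := lin_le hl hW y (β := 23) h3
  have hsub : (Finset.range l).filter (fun j => (l : ℤ) ∣ (((y + j * W : ℕ) : ℤ) - 1) *
      (((y + j * W : ℕ) : ℤ) + 2) * (3 * ((y + j * W : ℕ) : ℤ) + 23)) ⊆
      ((Finset.range l).filter (fun j => (l : ℤ) ∣ 1 * ((y + j * W : ℕ) : ℤ) + -1)) ∪
        (((Finset.range l).filter (fun j => (l : ℤ) ∣ 1 * ((y + j * W : ℕ) : ℤ) + 2)) ∪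
          ((Finset.range l).filter (fun j => (l : ℤ) ∣ 3 * ((y + j * W : ℕ) : ℤ) + 23))) := by
    intro j hj
    rw [Finset.mem_filter] at hj
    rw [Finset.mem_union, Finset.mem_union, Finset.mem_filter, Finset.mem_filter, Finset.mem_filter]
    rcases hlp.dvd_or_dvd hj.2 with h | h
    · rcases hlp.dvd_or_dvd h with h | h
      · exact Or.inl ⟨hj.1, by rwa [one_mul, ← sub_eq_add_neg]⟩
      · exact Or.inr (Or.inl ⟨hj.1, by rwa [one_mul]⟩)
    · exact Or.inr (Or.inr ⟨hj.1, h⟩)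
  refine (Finset.card_le_card hsub).trans ((Finset.card_union_le _ _).trans ?_)
  have h := Finset.card_union_le
    ((Finset.range l).filter (fun j => (l : ℤ) ∣ 1 * ((y + j * W : ℕ) : ℤ) + 2))
    ((Finset.range l).filter (fun j => (l : ℤ) ∣ 3 * ((y + j * W : ℕ) : ℤ) + 23))
  omega

open Classical in
/-- the number of good numbers of a full period -/
theorem period_count (T : Finset ℕ) (hT : ∀ l ∈ T, l.Prime ∧ 5 ≤ l) (A : ℕ) :
    ∏ l ∈ T, (l - 3) ≤ ((Finset.Ico A (A + ∏ l ∈ T, l)).filter (fun y => Good T y)).card := by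
  induction T using Finset.induction_on with
  | empty => simp [Good]
  | insert l T hlT ih =>
    have hl := hT l (Finset.mem_insert_self _ _)
    have ih' := ih (fun l' h' => hT l' (Finset.mem_insert_of_mem h'))
    rw [Finset.prod_insert hlT, Finset.prod_insert hlT]
    set W := ∏ l' ∈ T, l' with hWdef
    have hWT : ∀ l' ∈ T, l' ∣ W := fun l' h' => Finset.dvd_prod_of_mem _ h'
    have hlW : ¬ l ∣ W := by
      intro h
      rw [hWdef] at h
      obtain ⟨l', h', h''⟩ := (hl.1.prime.dvd_finsetProd_iff _).1 h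
      have h2 := (Nat.prime_dvd_prime_iff_eq hl.1 (hT l' (Finset.mem_insert_of_mem h')).1).1 h''
      exact hlT (h2 ▸ h')
    have hW0 : 0 < W := by
      rw [hWdef]
      exact Finset.prod_pos fun l' h' => (hT l' (Finset.mem_insert_of_mem h')).1.pos
    set S0 := (Finset.Ico A (A + W)).filter (fun y => Good T y) with hS0
    -- the pairs
    let F : Finset (Σ _ : ℕ, ℕ) := S0.sigma fun y =>
      (Finset.range l).filter (fun j => ¬ (l : ℤ) ∣ (((y + j * W : ℕ) : ℤ) - 1) *
        (((y + j * W : ℕ) : ℤ) + 2) * (3 * ((y + j * W : ℕ) : ℤ) + 23))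
    have hF : (l - 3) * S0.card ≤ F.card := by
      rw [Finset.card_sigma, mul_comm, ← smul_eq_mul]
      apply Finset.card_nsmul_le_sum
      intro y _
      have h1 := Finset.card_filter_add_card_filter_not (s := Finset.range l)
        (fun j => (l : ℤ) ∣ (((y + j * W : ℕ) : ℤ) - 1) *
        (((y + j * W : ℕ) : ℤ) + 2) * (3 * ((y + j * W : ℕ) : ℤ) + 23))
      rw [Finset.card_range] at h1
      have h2 := bad_le hl.1 hl.2 hlW y
      omega
    have hinj : F.card ≤ ((Finset.Ico A (A + l * W)).filter (fun y => Good (insert l T) y)).card := by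
      apply Finset.card_le_card_of_injOn (fun q => q.1 + q.2 * W)
      · rintro ⟨y, j⟩ hq
        simp only [F, Finset.coe_sigma, Set.mem_sigma_iff, Finset.mem_coe, Finset.mem_filter,
          Finset.mem_range, hS0, Finset.mem_Ico] at hq
        obtain ⟨⟨hy, hgood⟩, hj, hbad⟩ := hq
        simp only [Finset.coe_filter, Finset.mem_Ico, Set.mem_ofPred_eq]
        refine ⟨⟨by nlinarith [Nat.zero_le (j * W)], ?_⟩, ?_⟩
        · have h1 : (j + 1) * W ≤ l * W := Nat.mul_le_mul_right _ hj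
          have h2 : (j + 1) * W = j * W + W := by ring
          omega
        · intro l' h'
          rw [Finset.mem_insert] at h'
          rcases h' with h' | h'
          · rw [h']
            exact hbad
          · exact good_period hWT y j hgood l' h'
      · rintro ⟨y, j⟩ hq ⟨y', j'⟩ hq' he
        simp only [F, Finset.coe_sigma, Set.mem_sigma_iff, Finset.mem_coe, Finset.mem_filter,
          Finset.mem_range, hS0, Finset.mem_Ico] at hq hq'
        dsimp only at he
        have hy := hq.1.1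
        have hy' := hq'.1.1
        obtain ⟨s, hs⟩ := Nat.exists_eq_add_of_le hy.1
        obtain ⟨s', hs'⟩ := Nat.exists_eq_add_of_le hy'.1
        have e1 : s + j * W = s' + j' * W := by omega
        have hsW : s < W := by omega
        have hsW' : s' < W := by omega
        have e2 : s = s' := by
          have h1 : (s + j * W) % W = (s' + j' * W) % W := by rw [e1]
          rwa [Nat.add_mul_mod_self_right, Nat.add_mul_mod_self_right, Nat.mod_eq_of_lt hsW,
            Nat.mod_eq_of_lt hsW'] at h1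
        have e3 : j = j' := by
          rw [e2] at e1
          have h1 : j * W = j' * W := by omega
          exact Nat.eq_of_mul_eq_mul_right hW0 h1
        have e4 : y = y' := by omega
        rw [e3, e4]
    calc (l - 3) * ∏ l' ∈ T, (l' - 3) ≤ (l - 3) * S0.card := Nat.mul_le_mul_left _ ih'
      _ ≤ F.card := hF
      _ ≤ _ := hinj

open Classical in
theorem blocks (T : Finset ℕ) (hT : ∀ l ∈ T, l.Prime ∧ 5 ≤ l) (A m : ℕ) :
    m * ∏ l ∈ T, (l - 3) ≤
      ((Finset.Ico A (A + m * ∏ l ∈ T, l)).filter (fun y => Good T y)).card := by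
  induction m with
  | zero => simp
  | succ m ih =>
    have h := period_count T hT (A + m * ∏ l ∈ T, l)
    set W := ∏ l ∈ T, l
    have e : A + (m + 1) * W = A + m * W + W := by ring
    rw [e]
    have hu : Finset.Ico A (A + m * W + W) = Finset.Ico A (A + m * W) ∪
        Finset.Ico (A + m * W) (A + m * W + W) :=
      (Finset.Ico_union_Ico_eq_Ico (by omega) (by omega)).symm
    rw [hu, Finset.filter_union, Finset.card_union_of_disjoint]
    · rw [add_mul, one_mul]
      omega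
    · apply Finset.disjoint_filter_filter
      exact Finset.Ico_disjoint_Ico_consecutive _ _ _

theorem dens_eq (G : ℕ) : (∏ l ∈ (Finset.Icc 5 G).filter Nat.Prime, (1 - 3 / (l : ℝ))) *
    ((∏ l ∈ (Finset.Icc 5 G).filter Nat.Prime, l : ℕ) : ℝ) =
    ((∏ l ∈ (Finset.Icc 5 G).filter Nat.Prime, (l - 3) : ℕ) : ℝ) := by
  push_cast
  rw [← Finset.prod_mul_distrib]
  apply Finset.prod_congr rfl
  intro l hl
  rw [Finset.mem_filter, Finset.mem_Icc] at hl
  have h5 : (5 : ℝ) ≤ l := by exact_mod_cast hl.1.1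
  rw [Nat.cast_sub (by omega)]
  push_cast
  field_simp

theorem dens_nonneg (G : ℕ) : 0 ≤ ∏ l ∈ (Finset.Icc 5 G).filter Nat.Prime, (1 - 3 / (l : ℝ)) := by
  apply Finset.prod_nonneg
  intro l hl
  rw [Finset.mem_filter, Finset.mem_Icc] at hl
  have h5 : (5 : ℝ) ≤ l := by exact_mod_cast hl.1.1
  have : 3 / (l : ℝ) ≤ 1 := by
    rw [div_le_one (by linarith)]
    linarith
  linarith

/-- the sieve, from the growth of the product -/
theorem sieve_of {K : ℝ} (hK : 0 ≤ K) {G : ℕ}
    (hG : K ≤ G * ∏ l ∈ (Finset.Icc 5 G).filter Nat.Prime, (1 - 3 / (l : ℝ))) :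
    ∃ Q : ℕ, ∀ A D : ℕ, K * ((D : ℝ) - Q) ≤ G * cnt G A (A + D) := by
  classical
  have hP := dens_eq G
  have hd0 := dens_nonneg G
  set T := (Finset.Icc 5 G).filter Nat.Prime with hTdef
  set dens : ℝ := ∏ l ∈ T, (1 - 3 / (l : ℝ)) with hdens
  set W := ∏ l ∈ T, l with hW
  refine ⟨W, fun A D => ?_⟩
  have hT : ∀ l ∈ T, l.Prime ∧ 5 ≤ l := by
    intro l hl
    rw [hTdef, Finset.mem_filter, Finset.mem_Icc] at hl
    exact ⟨hl.2, hl.1.1⟩
  have hW0 : 0 < W := Finset.prod_pos fun l hl => (hT l hl).1.pos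
  have h1 := blocks T hT A (D / W)
  have h2 : ((Finset.Ico A (A + D / W * W)).filter (fun y => Good T y)).card ≤ cnt G A (A + D) := by
    unfold cnt
    apply Finset.card_le_card
    intro y hy
    rw [Finset.mem_filter, Finset.mem_Ico] at hy ⊢
    have h3 := Nat.div_mul_le_self D W
    refine ⟨⟨hy.1.1, by omega⟩, ?_⟩
    intro l hl h5l hlG
    apply hy.2 l
    rw [hTdef, Finset.mem_filter, Finset.mem_Icc]
    exact ⟨⟨h5l, hlG⟩, hl⟩
  set P := ∏ l ∈ T, (l - 3) with hPdef
  have h3 : ((D / W : ℕ) : ℝ) * (P : ℝ) ≤ (cnt G A (A + D) : ℝ) := by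
    exact_mod_cast h1.trans h2
  have hWr : (0 : ℝ) < W := by exact_mod_cast hW0
  rcases le_or_gt (W : ℝ) (D : ℝ) with hD | hD
  · have h4 : (D : ℝ) - W ≤ ((D / W : ℕ) : ℝ) * W := by
      have h5 : D < (D / W + 1) * W := by
        have h6 := Nat.div_add_mod D W
        have h7 := Nat.mod_lt D hW0
        nlinarith
      have h6 : (D : ℝ) < (((D / W : ℕ) : ℝ) + 1) * W := by exact_mod_cast h5
      linarith
    calc K * ((D : ℝ) - W) ≤ ((G : ℝ) * dens) * ((D : ℝ) - W) :=
          mul_le_mul_of_nonneg_right hG (by linarith)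
      _ ≤ ((G : ℝ) * dens) * (((D / W : ℕ) : ℝ) * W) :=
          mul_le_mul_of_nonneg_left h4 (mul_nonneg (by positivity) hd0)
      _ = (G : ℝ) * (((D / W : ℕ) : ℝ) * P) := by
          rw [← hP]
          ring
      _ ≤ (G : ℝ) * (cnt G A (A + D) : ℝ) := mul_le_mul_of_nonneg_left h3 (by positivity)
  · have h4 : K * ((D : ℝ) - W) ≤ 0 := mul_nonpos_of_nonneg_of_nonpos hK (by linarith)
    have h5 : (0 : ℝ) ≤ (G : ℝ) * (cnt G A (A + D) : ℝ) := by positivity
    linarith

theorem sieve (K : ℝ) (hK : 0 ≤ K) : ∃ G Q : ℕ, ∀ A D : ℕ, K * ((D : ℝ) - Q) ≤ G * cnt G A (A + D) := by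
  obtain ⟨G, _, hG⟩ := G43.growth K
  obtain ⟨Q, hQ⟩ := sieve_of hK hG
  exact ⟨G, Q, hQ⟩

end Pool.Agent.TS33
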